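import Pool.Agent.Helper87.GO.PDM
import Pool.Agent.Helper10.GO.GoalsP2

/-!
# Project GO (MP_6af536_nt): the p-adic statement, orbit-wise
-/

set_option autoImplicit false

open MvPolynomial Filter Topology

namespace Pool.Agent.Helper87.GO

open Pool.Agent.Helper10.GO

/-- **PDM2.** -/
theorem pdm2 (hLIN : S_LIN2) (hINT : S_INT) (hSTR : S_STR) : S_PDM2 := by
  intro p hpF N f a φ hp hf ha
  obtain ⟨n₀, M, hM, hr⟩ := hLIN p N f a hf ha
  have hcl : ∀ r : ℕ, ∃ n₁ : ℕ, ∀ n, n₁ ≤ n → (eval (a (n₀ + r + M * n)) φ = 0 ↔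
      eval (a (n₀ + r + M * (n + 1))) φ = 0) := by
    intro r
    obtain ⟨b, H, y, h1, h2, h3⟩ := hr r
    exact cls hINT hSTR φ hp h1 h2 (z := fun n => a (n₀ + r + M * n)) h3
  choose n₁ hn₁ using hcl
  refine ⟨M, hM, n₀ + M * ((Finset.range M).sup n₁), fun n hn => ?_⟩
  obtain ⟨m, rfl⟩ : ∃ m, n = n₀ + m := ⟨n - n₀, by omega⟩
  have hm : M * ((Finset.range M).sup n₁) ≤ m := by omega
  have hlt : m % M < M := Nat.mod_lt _ hM
  have hle : n₁ (m % M) ≤ m / M := by
    refine (Finset.le_sup (f := n₁) (Finset.mem_range.2 hlt)).trans ?_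
    rw [Nat.le_div_iff_mul_le hM, mul_comm]
    exact hm
  have h := hn₁ (m % M) (m / M) hle
  have e1 : n₀ + m % M + M * (m / M) = n₀ + m := by
    have := Nat.mod_add_div m M
    omega
  have e2 : n₀ + m % M + M * (m / M + 1) = n₀ + m + M := by
    rw [mul_add, mul_one]
    have := Nat.mod_add_div m M
    omega
  rw [e1, e2] at h
  exact h

end Pool.Agent.Helper87.GO

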