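import Pool.Agent.Helper10.GO.GoalsP

/-!
# Project GO (MP_6af536_nt): the p-adic statement
-/

set_option autoImplicit false

open MvPolynomial Filter Topology

namespace Pool.Agent.Helper87.GO

open Pool.Agent.Helper10.GO

/-- In a residue class the zeros are all or finitely many. -/
theorem cls (hINT : S_INT) (hSTR : S_STR) {p : ℕ} [Fact p.Prime] {N : ℕ}
    (φ : MvPolynomial (Fin N) ℤ_[p]) (hp : 3 ≤ p) {b : Fin N → ℤ_[p]}
    {H : Fin N → MvPolynomial (Fin N) ℤ_[p]} {y : ℕ → Fin N → ℤ_[p]}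
    (hH : ∀ i, ∃ Q : MvPolynomial (Fin N) ℤ_[p], H i = X i + C (p : ℤ_[p]) * Q)
    (hy : ∀ n i, y (n + 1) i = eval (y n) (H i)) {z : ℕ → Fin N → ℤ_[p]}
    (hz : ∀ n i, z n i = b i + p * y n i) :
    ∃ n₁ : ℕ, ∀ n, n₁ ≤ n → (eval (z n) φ = 0 ↔ eval (z (n + 1)) φ = 0) := by
  obtain ⟨c, hc, hce⟩ := hINT p N H y
    (aeval (fun i => (C (b i) + C (p : ℤ_[p]) * X i : MvPolynomial (Fin N) ℤ_[p])) φ) hH hy
  have hev : ∀ n, eval (z n) φ = ∑ j ∈ Finset.range (n + 1), (n.choose j : ℤ_[p]) * c j := by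
    intro n
    rw [← hce n]
    have e1 : eval (y n) (aeval (fun i => (C (b i) + C (p : ℤ_[p]) * X i :
        MvPolynomial (Fin N) ℤ_[p])) φ) = eval (fun i => b i + p * y n i) φ := by
      rw [← MvPolynomial.coe_aeval_eq_eval, ← MvPolynomial.coe_aeval_eq_eval]
      show aeval (y n) (aeval _ φ) = aeval _ φ
      rw [← AlgHom.comp_apply, MvPolynomial.comp_aeval]
      congr 2
      funext i
      simp
    rw [e1]
    congr 1
    congr 1
    funext i
    exact hz n i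
  by_cases hinf : {n : ℕ | ∑ j ∈ Finset.range (n + 1), (n.choose j : ℤ_[p]) * c j = 0}.Infinite
  · have h0 := hSTR p c hp hc hinf
    refine ⟨0, fun n _ => ?_⟩
    rw [hev, hev]
    simp [h0]
  · rw [Set.not_infinite] at hinf
    obtain ⟨B, hB⟩ := hinf.bddAbove
    refine ⟨B + 1, fun n hn => ?_⟩
    rw [hev, hev]
    constructor
    · intro h
      have h1 : n ≤ B := hB h
      omega
    · intro h
      have h1 : n + 1 ≤ B := hB h
      omega

/-- **PDM.** -/
theorem pdm (hLIN : S_LIN) (hINT : S_INT) (hSTR : S_STR) : S_PDM := by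
  intro p hpF N f a φ hp hf ha
  obtain ⟨n₀, M, hM, hr⟩ := hLIN p N f a hf ha
  have hcl : ∀ r : ℕ, ∃ n₁ : ℕ, ∀ n, n₁ ≤ n → (eval (a (n₀ + r + M * n)) φ = 0 ↔
      eval (a (n₀ + r + M * (n + 1))) φ = 0) := by
    intro r
    obtain ⟨b, H, y, h1, h2, h3⟩ := hr r
    exact cls hINT hSTR φ hp h1 h2 (z := fun n => a (n₀ + r + M * n)) h3
  choose n₁ hn₁ using hcl
  refine ⟨M, hM, n₀ + M * ((Finset.range M).sup n₁), fun n hn => ?_⟩
  obtain ⟨m, rfl⟩ : ∃ m, n = n₀ + m := ⟨n - n₀, by omega⟩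
  have hm : M * ((Finset.range M).sup n₁) ≤ m := by omega
  have hlt : m % M < M := Nat.mod_lt _ hM
  have hle : n₁ (m % M) ≤ m / M := by
    refine (Finset.le_sup (f := n₁) (Finset.mem_range.2 hlt)).trans ?_
    rw [Nat.le_div_iff_mul_le hM, mul_comm]
    exact hm
  have h := hn₁ (m % M) (m / M) hle
  have e1 : n₀ + m % M + M * (m / M) = n₀ + m := by
    have := Nat.mod_add_div m M
    omega
  have e2 : n₀ + m % M + M * (m / M + 1) = n₀ + m + M := by
    rw [mul_add, mul_one]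
    have := Nat.mod_add_div m M
    omega
  rw [e1, e2] at h
  exact h

end Pool.Agent.Helper87.GO

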